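import Pool.Agent.X27.Chr.AM
import Pool.Agent.X27.Chr.Add

/-!
# Largest character degrees of Sylow subgroups: the inequality up to subpolynomial factors

Let `b(G)` be the largest degree of an irreducible character of the finite group `G`, and `G_p` a Sylow `p`-subgroup of
`G`. Let `P` be a class of finite groups closed under direct squares (all groups, the solvable groups, ...). We show that
`∏ b(G_p) ≤ b(G)` holds on `P` if and only if for each `ε > 0` there is `C` such that `∏ b(G_p) ≤ C |G|^ε b(G)` on `P`.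
-/

set_option autoImplicit false

namespace Pool.Agent.Results.MP_943e8c_al.SubpolynomialError

open Pool.Agent.X27.Chr Pool.Agent.Helper884.IC

/-- The largest degree of an irreducible complex character of `G`. -/
noncomputable def bd (G : Type) [Group G] [Finite G] : ℕ :=
  sSup {n | ∃ chi : G → ℂ, IsIrrChar chi ∧ chi 1 = (n : ℂ)}

/-- `b(G_p)` for a Sylow `p`-subgroup `G_p` of `G`. -/
noncomputable def bS (p : ℕ) (G : Type) [Group G] [Finite G] : ℕ :=
  bd (Classical.choice (Sylow.nonempty (p := p) (G := G))).toSubgroup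

/-- `∏ b(G_p)` over the prime divisors `p` of `|G|`. -/
noncomputable def prodS (G : Type) [Group G] [Finite G] : ℕ :=
  ∏ p ∈ (Nat.card G).primeFactors, bS p G

theorem bdd (G : Type) [Group G] [Finite G] :
    BddAbove {n : ℕ | ∃ chi : G → ℂ, IsIrrChar chi ∧ chi 1 = (n : ℂ)} := by
  have : Fintype G := Fintype.ofFinite G
  refine Set.Finite.bddAbove ?_
  refine ((irr_finite (G := G)).image dg).subset ?_
  rintro n ⟨chi, h, hn⟩
  exact ⟨chi, h, dg_eq hn⟩

theorem ne (G : Type) [Group G] [Finite G] :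
    {n : ℕ | ∃ chi : G → ℂ, IsIrrChar chi ∧ chi 1 = (n : ℂ)}.Nonempty := by
  have : Fintype G := Fintype.ofFinite G
  exact ⟨1, fun _ => 1, irr_triv G, by simp⟩

theorem bd_prod (G : Type) [Group G] [Finite G] : bd (G × G) = bd G ^ 2 := by
  have : Fintype G := Fintype.ofFinite G
  apply le_antisymm
  · refine csSup_le (ne _) ?_
    rintro n ⟨phi, h, hn⟩
    obtain ⟨chi, psi, hc, hp, rfl⟩ := irr_prod_surj h
    have h1 : dg chi ≤ bd G := le_csSup (bdd G) ⟨chi, hc, dg_cast hc⟩
    have h2 : dg psi ≤ bd G := le_csSup (bdd G) ⟨psi, hp, dg_cast hp⟩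
    have h3 : n = dg chi * dg psi := by
      rw [← dg_bx hc hp]
      exact (dg_eq hn).symm
    rw [h3, pow_two]
    exact Nat.mul_le_mul h1 h2
  · obtain ⟨chi, hc, hn⟩ := Nat.sSup_mem (ne G) (bdd G)
    refine le_csSup (bdd _) ⟨bx chi chi, irr_bx hc hc, ?_⟩
    change chi 1 * chi 1 = _
    rw [hn, pow_two]
    push_cast
    rfl

theorem bd_equiv {G H : Type} [Group G] [Finite G] [Group H] [Finite H] (e : G ≃* H) :
    bd G = bd H := by
  have : Fintype G := Fintype.ofFinite G
  have : Fintype H := Fintype.ofFinite H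
  unfold bd
  congr 1
  ext n
  constructor
  · rintro ⟨chi, h, hn⟩
    refine ⟨fun x => chi (e.symm x), (irr_comp_iff e.symm chi).2 h, ?_⟩
    change chi (e.symm 1) = _
    rw [map_one]
    exact hn
  · rintro ⟨chi, h, hn⟩
    refine ⟨fun x => chi (e x), (irr_comp_iff e chi).2 h, ?_⟩
    change chi (e 1) = _
    rw [map_one]
    exact hn

theorem bS_eq {p : ℕ} [Fact p.Prime] {G : Type} [Group G] [Finite G] (P : Sylow p G) :
    bS p G = bd (P : Subgroup G) :=
  bd_equiv (Sylow.equiv _ P)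

theorem bS_prod {p : ℕ} [Fact p.Prime] (G : Type) [Group G] [Finite G] :
    bS p (G × G) = bS p G ^ 2 := by
  obtain ⟨P⟩ := Sylow.nonempty (p := p) (G := G)
  have h1 : IsPGroup p ((P : Subgroup G).prod (P : Subgroup G)) := by
    have h2 : IsPGroup p (P × P) := by
      obtain ⟨a, ha⟩ := IsPGroup.iff_card.1 P.isPGroup'
      refine IsPGroup.iff_card.2 ⟨a + a, ?_⟩
      rw [Nat.card_prod, pow_add]
      exact congrArg₂ (· * ·) ha ha
    exact h2.of_equiv (Subgroup.prodEquiv (P : Subgroup G) (P : Subgroup G)).symm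
  have h3 : ¬ p ∣ ((P : Subgroup G).prod (P : Subgroup G)).index := by
    rw [Subgroup.index_prod]
    intro h
    rcases (Fact.out : p.Prime).dvd_mul.1 h with h | h
    · exact P.not_dvd_index h
    · exact P.not_dvd_index h
  rw [bS_eq (h1.toSylow h3), bS_eq P, ← bd_prod]
  exact bd_equiv (Subgroup.prodEquiv (P : Subgroup G) (P : Subgroup G))

theorem prodS_prod (G : Type) [Group G] [Finite G] : prodS (G × G) = prodS G ^ 2 := by
  unfold prodS
  rw [Nat.card_prod, Nat.primeFactors_mul Nat.card_pos.ne' Nat.card_pos.ne', Finset.union_self,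
    ← Finset.prod_pow]
  refine Finset.prod_congr rfl fun p hp => ?_
  have : Fact p.Prime := ⟨Nat.prime_of_mem_primeFactors hp⟩
  exact bS_prod G

/-- A finite group. -/
structure Gp where
  G : Type
  [grp : Group G]
  [fin : Finite G]

attribute [instance] Gp.grp Gp.fin

/-- The direct square. -/
def Gp.sq (x : Gp) : Gp := ⟨x.G × x.G⟩

theorem powers (P : Gp → Prop) (hP : ∀ x, P x → P x.sq) (x : Gp) (hx : P x) (n : ℕ) :
    ∃ y : Gp, P y ∧ Nat.card y.G = Nat.card x.G ^ 2 ^ n ∧ prodS y.G = prodS x.G ^ 2 ^ n ∧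
      bd y.G = bd x.G ^ 2 ^ n := by
  induction n with
  | zero => exact ⟨x, hx, by simp, by simp, by simp⟩
  | succ n ih =>
    obtain ⟨y, h1, h2, h3, h4⟩ := ih
    refine ⟨y.sq, hP y h1, ?_, ?_, ?_⟩
    · change Nat.card (y.G × y.G) = _
      rw [Nat.card_prod, h2, ← pow_two, pow_succ 2 n, pow_mul]
    · change prodS (y.G × y.G) = _
      rw [prodS_prod, h3, pow_succ 2 n, pow_mul]
    · change bd (y.G × y.G) = _
      rw [bd_prod, h4, pow_succ 2 n, pow_mul]

/-- **The inequality up to factors `|G|^o(1)` implies the inequality.** -/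
theorem result (P : Gp → Prop) (hP : ∀ x, P x → P x.sq) :
    (∀ x, P x → prodS x.G ≤ bd x.G) ↔ ∀ ε : ℝ, 0 < ε → ∃ C : ℝ, ∀ x, P x →
      (prodS x.G : ℝ) ≤ C * (Nat.card x.G : ℝ) ^ ε * bd x.G := by
  constructor
  · intro h ε hε
    refine ⟨1, fun x hx => ?_⟩
    have h2 : (1 : ℝ) ≤ (Nat.card x.G : ℝ) ^ ε :=
      Real.one_le_rpow (by exact_mod_cast Nat.card_pos) hε.le
    have h3 : (prodS x.G : ℝ) ≤ bd x.G := by exact_mod_cast h x hx
    have h4 : (0 : ℝ) ≤ bd x.G := Nat.cast_nonneg _
    nlinarith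
  · intro h x hx
    refine amplify (g := Nat.card x.G) Nat.card_pos fun ε hε => ?_
    obtain ⟨C, hC⟩ := h ε hε
    refine ⟨C, fun n => ?_⟩
    obtain ⟨y, h1, h2, h3, h4⟩ := powers P hP x hx n
    rw [← h2, ← h3, ← h4]
    exact hC y h1

end Pool.Agent.Results.MP_943e8c_al.SubpolynomialError
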